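import Pool.Agent.Lib.MP_c3d375_an.Neg.Iface

set_option autoImplicit false

open Complex Metric Set Filter Topology ComplexConjugate

namespace C3N.H97

theorem pow_bound (s : ℝ) (h0 : 0 ≤ s) (h1 : s ≤ 1) (N : ℕ) :
    s * (1 - s) ^ N ≤ 1 / ((N : ℝ) + 1) := by
  have key : ∀ n : ℕ, s * (1 - s) ^ n * ((n : ℝ) + 1) ≤ 1 - (1 - s) ^ (n + 1) := by
    intro n
    induction n with
    | zero => simp
    | succ n ih =>
      have h3 : (1 - s) ^ (n + 1) ≤ 1 := pow_le_one₀ (by linarith) (by linarith)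
      have h4 : (1 - s) * (s * (1 - s) ^ n * ((n : ℝ) + 1)) ≤
          (1 - s) * (1 - (1 - s) ^ (n + 1)) := mul_le_mul_of_nonneg_left ih (by linarith)
      have h5 : s * (1 - s) ^ (n + 1) ≤ s * 1 := mul_le_mul_of_nonneg_left h3 h0
      have h6 : s * (1 - s) ^ (n + 1) * (((n + 1 : ℕ) : ℝ) + 1) =
          (1 - s) * (s * (1 - s) ^ n * ((n : ℝ) + 1)) + s * (1 - s) ^ (n + 1) := by
        push_cast; ring
      have h7 : (1 - s) ^ (n + 1 + 1) = (1 - s) * (1 - s) ^ (n + 1) := by ring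
      rw [h6, h7]
      linarith
  rw [le_div_iff₀ (by positivity)]
  have h2 : 0 ≤ (1 - s) ^ (N + 1) := pow_nonneg (by linarith) _
  linarith [key N]

/-- `K = p/(1+p²)` for `p` in the sector. -/
theorem K_bound (p : ℂ) (h1 : 0 < p.re) (h2 : 0 < (p ^ 2).re) :
    ‖p * (1 + p ^ 2)⁻¹‖ ≤ 1 ∧
      ‖1 - p * (1 + p ^ 2)⁻¹‖ ≤ 1 - ‖p * (1 + p ^ 2)⁻¹‖ / 3 := by
  set K := p * (1 + p ^ 2)⁻¹ with hK
  set a := p.re with ha
  set b := p.im with hb
  have hre : (p ^ 2).re = a ^ 2 - b ^ 2 := by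
    rw [pow_two, Complex.mul_re]; ring
  have him : (p ^ 2).im = 2 * a * b := by
    rw [pow_two, Complex.mul_im]; ring
  rw [hre] at h2
  set D := Complex.normSq (1 + p ^ 2) with hD
  have hDv : D = (1 + (a ^ 2 - b ^ 2)) ^ 2 + (2 * a * b) ^ 2 := by
    rw [hD, Complex.normSq_apply, Complex.add_re, Complex.add_im, hre, him]
    simp only [Complex.one_re, Complex.one_im]; ring
  have hDpos : 0 < D := by rw [hDv]; positivity
  have hKre : K.re = a * (1 + (a ^ 2 + b ^ 2)) / D := by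
    rw [hK, Complex.mul_re, Complex.inv_re, Complex.inv_im, Complex.add_re, Complex.add_im, hre,
      him, ← hD, ← ha, ← hb]
    simp only [Complex.one_re, Complex.one_im]
    field_simp
    ring
  have hKn : ‖K‖ ^ 2 = (a ^ 2 + b ^ 2) / D := by
    rw [← Complex.normSq_eq_norm_sq, hK, Complex.normSq_mul, Complex.normSq_inv, ← hD,
      Complex.normSq_apply p, ← ha, ← hb]
    field_simp
  have hx0 : 0 ≤ ‖K‖ := norm_nonneg K
  -- |K|^2 ≤ 1/2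
  have hx2 : ‖K‖ ^ 2 ≤ 1 / 2 := by
    rw [hKn, div_le_iff₀ hDpos, hDv]
    nlinarith [sq_nonneg (a ^ 2 + b ^ 2 - 1)]
  have hx1 : ‖K‖ ≤ 71 / 100 := by
    by_contra hcon
    push Not at hcon
    nlinarith
  have hKpos : 0 < K.re := by rw [hKre]; positivity
  have hsq : ‖K‖ ^ 2 / 2 ≤ K.re ^ 2 := by
    rw [hKn, hKre, div_pow, div_div, div_le_div_iff₀ (by positivity) (by positivity)]
    have hD2 : D ≤ (1 + (a ^ 2 + b ^ 2)) ^ 2 := by
      rw [hDv]; nlinarith [sq_nonneg b, sq_nonneg a]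
    have h5 : (a ^ 2 + b ^ 2) * D ≤ (2 * a ^ 2) * (1 + (a ^ 2 + b ^ 2)) ^ 2 := by
      apply mul_le_mul (by linarith) hD2 hDpos.le (by positivity)
    nlinarith [mul_le_mul_of_nonneg_right h5 hDpos.le]
  have hre7 : 7 / 10 * ‖K‖ ≤ K.re := by
    by_contra hcon
    push Not at hcon
    nlinarith
  have hn1 : ‖1 - K‖ ^ 2 = 1 - 2 * K.re + ‖K‖ ^ 2 := by
    rw [← Complex.normSq_eq_norm_sq, ← Complex.normSq_eq_norm_sq, Complex.normSq_apply,
      Complex.normSq_apply]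
    simp only [Complex.sub_re, Complex.sub_im, Complex.one_re, Complex.one_im]
    ring
  refine ⟨by linarith, ?_⟩
  have hy : 0 ≤ 1 - ‖K‖ / 3 := by linarith
  have hlt : ‖1 - K‖ ^ 2 ≤ (1 - ‖K‖ / 3) ^ 2 := by
    rw [hn1]; nlinarith
  exact (sq_le_sq₀ (norm_nonneg _) hy).1 hlt

/-- `|R| ≤ 1`. -/
theorem R_bound (h : ℂ) (hh : 0 < h.re) : ‖1 - 2 * (1 + h)⁻¹‖ ≤ 1 := by
  have hne : (1 + h) ≠ 0 := by
    intro h0
    have := congrArg Complex.re h0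
    simp at this
    linarith
  have e1 : 1 - 2 * (1 + h)⁻¹ = (h - 1) / (1 + h) := by
    field_simp; ring
  rw [e1, norm_div, div_le_one (norm_pos_iff.2 hne)]
  apply (sq_le_sq₀ (norm_nonneg _) (norm_nonneg _)).1
  rw [← Complex.normSq_eq_norm_sq, ← Complex.normSq_eq_norm_sq, Complex.normSq_apply,
      Complex.normSq_apply]
  simp only [Complex.sub_re, Complex.sub_im, Complex.add_re, Complex.add_im, Complex.one_re,
    Complex.one_im]
  nlinarith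

/-- bound for `E`. -/
theorem E_bound (p ν : ℂ) (δ : ℝ) (hδ : 0 < δ) (h2 : 0 < (p ^ 2).re) (hν : 0 < ν.re)
    (hw : ‖(ν - 1) / (ν + 1)‖ ^ 2 ≤ 1 - δ) :
    ‖(1 + ((ν - 1) ^ 2 / ν) * (p * (1 + p ^ 2)⁻¹) ^ 2)⁻¹‖ ≤ 2 / δ := by
  have hν0 : ν ≠ 0 := by
    intro h0; rw [h0] at hν; simp at hν
  have hν1 : ν + 1 ≠ 0 := by
    intro h0
    have := congrArg Complex.re h0
    simp at this
    linarith
  have hp : (1 + p ^ 2) ≠ 0 := by
    intro h0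
    have := congrArg Complex.re h0
    rw [Complex.add_re, Complex.one_re, Complex.zero_re] at this
    linarith
  set w := (ν - 1) / (ν + 1) with hwd
  set R := 1 - 2 * (1 + p ^ 2)⁻¹ with hR
  have hRb : ‖R‖ ≤ 1 := R_bound _ h2
  have hw1 : ‖w‖ ^ 2 ≤ 1 := by linarith
  have hwR : ‖w ^ 2 * R ^ 2‖ ≤ 1 - δ := by
    rw [norm_mul, norm_pow, norm_pow]
    have : ‖R‖ ^ 2 ≤ 1 := pow_le_one₀ (norm_nonneg _) hRb
    calc ‖w‖ ^ 2 * ‖R‖ ^ 2 ≤ ‖w‖ ^ 2 * 1 := mul_le_mul_of_nonneg_left this (by positivity)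
      _ ≤ 1 - δ := by linarith
  have hden : δ ≤ ‖1 - w ^ 2 * R ^ 2‖ := by
    have := norm_sub_norm_le (1 : ℂ) (w ^ 2 * R ^ 2)
    rw [norm_one] at this
    linarith
  have hne : 1 - w ^ 2 * R ^ 2 ≠ 0 := by
    intro h0
    rw [h0, norm_zero] at hden
    linarith
  have key : 1 + ((ν - 1) ^ 2 / ν) * (p * (1 + p ^ 2)⁻¹) ^ 2 =
      (1 - w ^ 2 * R ^ 2) * ((ν + 1) ^ 2 / (4 * ν)) := by
    rw [hwd, hR]
    field_simp
    ring
  have key2 : (ν + 1) ^ 2 / (4 * ν) = (1 - w ^ 2)⁻¹ := by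
    have h4 : (1 - w ^ 2) = 4 * ν / (ν + 1) ^ 2 := by
      rw [hwd]; field_simp; ring
    rw [h4, inv_div]
  rw [key, key2, mul_inv, inv_inv, norm_mul, norm_inv]
  have h5 : ‖1 - w ^ 2‖ ≤ 2 := by
    calc ‖1 - w ^ 2‖ ≤ ‖(1 : ℂ)‖ + ‖w ^ 2‖ := norm_sub_le _ _
      _ ≤ 1 + 1 := by rw [norm_one, norm_pow]; linarith
      _ = 2 := by norm_num
  calc ‖1 - w ^ 2 * R ^ 2‖⁻¹ * ‖1 - w ^ 2‖ ≤ δ⁻¹ * 2 :=
        mul_le_mul (inv_anti₀ hδ hden) h5 (norm_nonneg _) (by positivity)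
    _ = 2 / δ := by ring

theorem bnd_st (hP : P1Statement) (hN : NUStatement) : BNDStatement := by
  intro a ha1 ha2
  obtain ⟨e0, he0, hP1⟩ := hP a ha1 ha2
  have ha3 : 0 < 1 - a := by linarith
  have hc : (1 - a) ^ 3 ≤ 1 / 8 := by
    have : (1 - a) ^ 3 ≤ (1 / 2) ^ 3 := pow_le_pow_left₀ ha3.le (by linarith) 3
    norm_num at this ⊢
    linarith
  have hc0 : 0 < (1 - a) ^ 3 := by positivity
  have hM : (440 : ℝ) ≤ 440 / (1 - a) ^ 3 := by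
    rw [le_div_iff₀ hc0]; linarith
  refine ⟨440 / (1 - a) ^ 3, by linarith, e0, he0, ?_⟩
  intro e he he1 H _ _ _ r hr1 hr2 S q hq
  obtain ⟨-, -, -, -, hnu, -, -, -, -, hw, hz⟩ := hN a ha1 ha2 r hr1 hr2 q hq
  have hsub : ∀ z ∈ closedBall (0 : ℂ) 1, z ∈ ball (0 : ℂ) r := by
    intro z hz1
    rw [mem_closedBall_zero_iff] at hz1
    rw [mem_ball_zero_iff]; linarith
  obtain ⟨hrho, -, hqh, -⟩ := hN a ha1 ha2 r hr1 hr2 q hq
  have hp1 : ∀ z ∈ ball (0 : ℂ) r, 0 < (fn (qh q) z).re := by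
    intro z hz1
    rw [hqh z, ← Complex.ofReal_inv, Complex.re_ofReal_mul]
    exact mul_pos (inv_pos.2 hrho) (hq.re_pos z hz1)
  have hp2 : ∀ z ∈ ball (0 : ℂ) r, 0 < ((fn (qh q) z) ^ 2).re := by
    intro z hz1
    rw [hqh z, mul_pow, ← Complex.ofReal_inv, ← Complex.ofReal_pow, Complex.re_ofReal_mul]
    exact mul_pos (by positivity) (hq.re_sq_pos z hz1)
  have hK : ∀ z ∈ ball (0 : ℂ) r, fn (qh q * jj q) z =
      fn (qh q) z * (1 + (fn (qh q) z) ^ 2)⁻¹ := by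
    intro z hz1
    rw [fn_mul, (hz z hz1).2.1]
  refine ⟨?_, ?_, ?_⟩
  · intro N
    have hb : ∀ z ∈ closedBall (0 : ℂ) 1,
        ‖fn (qh q * jj q * (1 - qh q * jj q) ^ N) z‖ ≤ 3 / ((N : ℝ) + 1) := by
      intro z hz1
      have hzr := hsub z hz1
      rw [fn_mul, fn_pow _ _ hzr, fn_sub, fn_one hzr, hK z hzr, norm_mul, norm_pow]
      obtain ⟨k1, k2⟩ := K_bound _ (hp1 z hzr) (hp2 z hzr)
      set K := fn (qh q) z * (1 + (fn (qh q) z) ^ 2)⁻¹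
      have h3 := pow_bound (‖K‖ / 3) (by positivity) (by linarith) N
      calc ‖K‖ * ‖1 - K‖ ^ N ≤ ‖K‖ * (1 - ‖K‖ / 3) ^ N :=
            mul_le_mul_of_nonneg_left (pow_le_pow_left₀ (norm_nonneg _) k2 N) (norm_nonneg _)
        _ = 3 * (‖K‖ / 3 * (1 - ‖K‖ / 3) ^ N) := by ring
        _ ≤ 3 * (1 / ((N : ℝ) + 1)) := by linarith
        _ = 3 / ((N : ℝ) + 1) := by ring
    refine (hP1 e he he1 H r hr1 hr2 S _ _ hb).trans ?_
    rw [← mul_div_assoc]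
    apply div_le_div_of_nonneg_right _ (by positivity)
    linarith
  · apply hol_ext
    intro z hzr
    rw [fn_mul, fn_add, fn_one hzr, fn_smul, fn_pow _ _ hzr, (hz z hzr).2.2.2.2.1]
    exact inv_mul_cancel₀ (hz z hzr).2.2.2.2.2.1
  · intro h12 N
    have hw1 := hw h12
    have hb : ∀ z ∈ closedBall (0 : ℂ) 1,
        ‖fn ((1 - 2 * jj q) ^ (2 * N) * Ef q a) z‖ ≤ 40 / (1 - a) ^ 3 := by
      intro z hz1
      have hzr := hsub z hz1
      have hEz : fn (Ef q a) z = (1 + ((nu q a - 1) ^ 2 / nu q a) *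
          (fn (qh q) z * (1 + (fn (qh q) z) ^ 2)⁻¹) ^ 2)⁻¹ := by
        rw [(hz z hzr).2.2.2.2.1, hK z hzr]
      have hR : fn (1 - 2 * jj q) z = 1 - 2 * (1 + (fn (qh q) z) ^ 2)⁻¹ := by
        rw [two_mul, fn_sub, fn_one hzr, fn_add, (hz z hzr).2.1]; ring
      rw [fn_mul, fn_pow _ _ hzr, hR, hEz, norm_mul, norm_pow]
      have h6 := E_bound (fn (qh q) z) (nu q a) ((1 - a) ^ 3 / 20) (by positivity) (hp2 z hzr)
        hnu hw1
      have h7 := R_bound _ (hp2 z hzr)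
      have h8 : ‖1 - 2 * (1 + (fn (qh q) z) ^ 2)⁻¹‖ ^ (2 * N) ≤ 1 :=
        pow_le_one₀ (norm_nonneg _) h7
      have h9 : 2 / ((1 - a) ^ 3 / 20) = 40 / (1 - a) ^ 3 := by
        field_simp; norm_num
      rw [h9] at h6
      calc _ ≤ 1 * (40 / (1 - a) ^ 3) :=
            mul_le_mul h8 h6 (norm_nonneg _) (by norm_num)
        _ = 40 / (1 - a) ^ 3 := one_mul _
    refine (hP1 e he he1 H r hr1 hr2 S _ _ hb).trans ?_
    rw [← mul_div_assoc]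
    apply le_of_eq
    norm_num

end C3N.H97
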